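import Mathlib
import Pool.Agent.KS6_20.CT.Toric

/-!
# Claw trees: equations of exponential degree, over every ring and scheme-theoretically

For every `K` there is a finite abelian group `G` of order `O(K ^ 4)` and a homogeneous binomial `p`
of degree `6 * 2 ^ K` in the toric ideal of the group-based model of `G` on the three-leaf claw
tree, such that no multiple `x_s ^ r p` (for a certain socket `s`) lies in the ideal generated by
the elements of the toric ideal of degree less than `6 * 2 ^ K`.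
-/

set_option autoImplicit false

open MvPolynomial

namespace Pool.Agent.Results.MP_ebd967_ag.ExponentialDegrees

universe u

section defs

/-- the sockets: triples of elements of `G` with sum zero -/
abbrev Socket (G : Type) [AddCommGroup G] : Type := {g : G × G × G // g.1 + g.2.1 + g.2.2 = 0}

variable (k : Type u) [CommRing k] (G : Type) [AddCommGroup G]

/-- the monomial map of the group-based model: `x_g ↦ t_{1,g_1} t_{2,g_2} t_{3,g_3}` -/
noncomputable def param : MvPolynomial (Socket G) k →ₐ[k] MvPolynomial (Fin 3 × G) k :=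
  aeval fun s => X (0, s.1.1) * X (1, s.1.2.1) * X (2, s.1.2.2)

/-- the toric ideal `I(K_{1,3}, G)` with coefficients in `k` -/
noncomputable def toricIdeal : Ideal (MvPolynomial (Socket G) k) := RingHom.ker (param k G)

/-- the ideal generated by the elements of the toric ideal of degree at most `d` -/
noncomputable def lowIdeal (d : ℕ) : Ideal (MvPolynomial (Socket G) k) :=
  Ideal.span {q | q ∈ toricIdeal k G ∧ q.totalDegree ≤ d}

end defs

open Pool.Agent.H929R3 Pool.Agent.KS6_20.CT

/-- the index equivalence -/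
def eqv (G : Type) [AddCommGroup G] : Socket G ≃ G × G where
  toFun s := (s.1.1, s.1.2.1)
  invFun r := ⟨(r.1, r.2, - r.1 - r.2), by simp⟩
  left_inv := by
    rintro ⟨⟨a, b, c⟩, h⟩
    have h' : a + b + c = 0 := h
    have : c = - a - b := by
      rw [← sub_eq_zero, ← h']; abel
    simp [this]
  right_inv := by rintro ⟨a, b⟩; rfl

theorem param_eq (k : Type u) [CommRing k] (G : Type) [AddCommGroup G] :
    param k G = Pool.Agent.KS6_20.CT.mono k (fun s => E0 (eqv G s)) := by
  have map_eq : (fun s : Socket G =>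
              (X ((0 : Fin 3), s.1.1) * X ((1 : Fin 3), s.1.2.1) *
                X ((2 : Fin 3), s.1.2.2) : MvPolynomial (Fin 3 × G) k)) =
      fun s => monomial (E0 (eqv G s)) 1 := by
    funext s
    obtain ⟨⟨a, b, c⟩, h⟩ := s
    have h' : a + b + c = 0 := h
    have hc : c = - a - b := by
      rw [← sub_eq_zero, ← h']; abel
    subst hc
    have h2 : E0 (eqv G ⟨(a, b, - a - b), h⟩) = Finsupp.single ((0 : Fin 3), a) 1 +
        Finsupp.single ((1 : Fin 3), b) 1 + Finsupp.single ((2 : Fin 3), - a - b) 1 := by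
      rw [E0, Fin.sum_univ_three]
      rfl
    rw [h2]
    show monomial _ 1 * monomial _ 1 * monomial _ 1 = _
    rw [monomial_mul, monomial_mul, one_mul, one_mul]
  unfold param
  rw [map_eq]

/-- the group and the binomial -/
theorem step (k : Type u) [CommRing k] [Nontrivial k] (K : ℕ) (hK : 1 ≤ K) :
    ∃ (G : Type) (_ : AddCommGroup G) (_ : Fintype G),
      Fintype.card G ≤ 42 * ((K + 2) * (K + 1) ^ 3) ∧
      ∃ p ∈ toricIdeal k G, p.IsHomogeneous (6 * 2 ^ K) ∧ ∃ s : Socket G, ∀ r d : ℕ,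
        d < 6 * 2 ^ K → X s ^ r * p ∉ lowIdeal k G d := by
  obtain ⟨N, hN0, hN, hG⟩ := exists_good K hK
  have : NeZero N := ⟨hN0.ne'⟩
  obtain ⟨T0, T1, g0, hdisj, hne, hd0, hd1, hlin, hfib⟩ := core hK hG (eqv (GG N))
  refine ⟨GG N, inferInstance, inferInstance, by rw [card_GG]; omega,
    monomial T0 1 - monomial T1 1, ?_, ?_, g0, fun r d hd hmem => ?_⟩
  · rw [toricIdeal, RingHom.mem_ker, param_eq]
    exact Pool.Agent.KS6_20.CT.binomial_mem _ T0 T1 hlin
  · exact (isHomogeneous_monomial _ hd0).sub (isHomogeneous_monomial _ hd1)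
  · refine Pool.Agent.KS6_20.CT.not_mem_span (k := k) (fun s => E0 (eqv (GG N) s)) T0 T1 g0 r
      hdisj hne (hfib r) {q | q ∈ toricIdeal k (GG N) ∧ q.totalDegree ≤ d} (fun q hq => ⟨?_, ?_⟩)
      hmem
    · have h1 := hq.1
      rwa [toricIdeal, RingHom.mem_ker, param_eq] at h1
    · rw [hd0]
      exact lt_of_le_of_lt hq.2 hd

/-- **Main theorem.** Let `k` be a nontrivial commutative ring.
(1) For every `K ≥ 1` there are a finite abelian group `G` of order at most
`42 (K + 2) (K + 1) ^ 3`, a homogeneous element `p` of degree `6 * 2 ^ K` of the toric ideal and a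
socket `s` such that `x_s ^ r p` is, for every `r`, not in the ideal generated by the elements of the
toric ideal of degree less than `6 * 2 ^ K`.
(2) For every `n ≥ 3402` there is a finite abelian group `G` of order at most `n` such that the
toric ideal is not generated by its elements of degree at most `d` if
`d < (3 / 4) * 2 ^ ((n / 42) ^ (1 / 4))`. -/
theorem result (k : Type u) [CommRing k] [Nontrivial k] :
    (∀ K : ℕ, 1 ≤ K → ∃ (G : Type) (_ : AddCommGroup G) (_ : Fintype G),
      Fintype.card G ≤ 42 * ((K + 2) * (K + 1) ^ 3) ∧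
      ∃ p ∈ toricIdeal k G, p.IsHomogeneous (6 * 2 ^ K) ∧ ∃ s : Socket G, ∀ r d : ℕ,
        d < 6 * 2 ^ K → X s ^ r * p ∉ lowIdeal k G d) ∧
    ∀ n : ℕ, 3402 ≤ n → ∃ (G : Type) (_ : AddCommGroup G) (_ : Fintype G),
      Fintype.card G ≤ n ∧ ∀ d : ℕ, lowIdeal k G d = toricIdeal k G →
        3 / 4 * (2 : ℝ) ^ (((n : ℝ) / 42) ^ ((1 : ℝ) / 4)) ≤ d := by
  refine ⟨step k, fun n hn => ?_⟩
  set x : ℝ := ((n : ℝ) / 42) ^ ((1 : ℝ) / 4) with hx
  have hn' : (3402 : ℝ) ≤ n := by exact_mod_cast hn
  have hx0 : 0 ≤ x := by positivity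
  have hx4 : x ^ 4 = (n : ℝ) / 42 := by
    rw [hx, ← Real.rpow_natCast, ← Real.rpow_mul (by positivity)]
    norm_num
  have hx3 : 3 ≤ x := by
    by_contra hcon
    push Not at hcon
    have : x ^ 4 < 3 ^ 4 := pow_lt_pow_left₀ hcon hx0 (by norm_num)
    rw [hx4, div_lt_iff₀ (by norm_num)] at this
    norm_num at this
    linarith
  have hm3 : 3 ≤ ⌊x⌋₊ := Nat.le_floor (by exact_mod_cast hx3)
  have hmx : (⌊x⌋₊ : ℝ) ≤ x := Nat.floor_le hx0
  have hmx2 : x < ⌊x⌋₊ + 1 := Nat.lt_floor_add_one x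
  obtain ⟨K, hKm⟩ : ∃ K, ⌊x⌋₊ = K + 2 := ⟨⌊x⌋₊ - 2, by omega⟩
  rw [hKm] at hm3 hmx hmx2
  have hK : 1 ≤ K := by omega
  obtain ⟨G, i1, i2, hcard, p, hp, -, s, hs⟩ := step k K hK
  refine ⟨G, i1, i2, hcard.trans ?_, fun d hd => ?_⟩
  · have h1 : ((42 * ((K + 2) * (K + 1) ^ 3) : ℕ) : ℝ) ≤ n := by
      have h2 : ((K : ℝ) + 2) ^ 4 ≤ (n : ℝ) / 42 := by
        rw [← hx4]
        have : ((K : ℝ) + 2) ≤ x := by
          have := hmx
          push_cast at this
          exact this
        exact pow_le_pow_left₀ (by positivity) this 4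
      have h3 : ((K : ℝ) + 1) ^ 3 ≤ ((K : ℝ) + 2) ^ 3 :=
        pow_le_pow_left₀ (by positivity) (by linarith) 3
      have h4 : (0 : ℝ) ≤ (K : ℝ) + 2 := by positivity
      push_cast
      rw [le_div_iff₀ (by norm_num)] at h2
      nlinarith
    exact_mod_cast h1
  · have h1 : 6 * 2 ^ K ≤ d := by
      by_contra hcon
      push Not at hcon
      have h2 := hs 0 d hcon
      rw [pow_zero, one_mul, hd] at h2
      exact h2 hp
    have h3 : (2 : ℝ) ^ x ≤ 2 ^ (K + 3) := by
      rw [← Real.rpow_natCast]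
      refine Real.rpow_le_rpow_of_exponent_le (by norm_num) ?_
      push_cast at hmx2 ⊢
      linarith
    have h4 : ((6 * 2 ^ K : ℕ) : ℝ) ≤ d := by exact_mod_cast h1
    push_cast at h4
    calc 3 / 4 * (2 : ℝ) ^ x ≤ 3 / 4 * 2 ^ (K + 3) := by linarith
      _ = 6 * 2 ^ K := by ring
      _ ≤ d := h4

end Pool.Agent.Results.MP_ebd967_ag.ExponentialDegrees
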